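import Pool.Agent.V5helper54.GP.Stm

/-! Project GP, job PROB. -/

set_option autoImplicit false

namespace Pool.Agent.V5helper70.GP

open Finset Filter MeasureTheory ProbabilityTheory
open Pool.Agent.V5helper54.GP

universe u

lemma exp_neg_le (x : ℝ) (hx : 0 ≤ x) : Real.exp (-x) ≤ 1 - x + x ^ 2 / 2 := by
  have h1 := Real.quadratic_le_exp_of_nonneg hx
  rw [Real.exp_neg, inv_le_iff_one_le_mul₀ (Real.exp_pos x)]
  have h2 : 0 ≤ 1 - x + x ^ 2 / 2 := by nlinarith [sq_nonneg (x - 1)]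
  have h3 : (1 - x + x ^ 2 / 2) * (1 + x + x ^ 2 / 2) ≤ (1 - x + x ^ 2 / 2) * Real.exp x :=
    mul_le_mul_of_nonneg_left h1 h2
  have h4 : (1 - x + x ^ 2 / 2) * (1 + x + x ^ 2 / 2) = 1 + x ^ 4 / 4 := by ring
  have h5 : 0 ≤ x ^ 4 := by positivity
  linarith

variable {Ω : Type u} [MeasurableSpace Ω]

open Classical in
/-- one indicator -/
lemma mgf_ind (μ : Measure Ω) [IsProbabilityMeasure μ] (θ : Ω → ℕ) (hm : Measurable θ) (B : Set ℕ) (t : ℝ) :
    mgf (fun ω => if θ ω ∈ B then (1 : ℝ) else 0) μ (-t) = 1 - (1 - Real.exp (-t)) * μ.real {ω | θ ω ∈ B} := by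
  unfold mgf
  have hB : MeasurableSet {ω | θ ω ∈ B} := hm (MeasurableSet.of_discrete)
  have e : (fun ω => Real.exp (-t * (if θ ω ∈ B then (1 : ℝ) else 0))) =
      fun ω => 1 - (1 - Real.exp (-t)) * ({ω | θ ω ∈ B}.indicator (fun _ => (1 : ℝ)) ω) := by
    funext ω
    by_cases h : θ ω ∈ B
    · have h' : ω ∈ {ω | θ ω ∈ B} := h
      rw [if_pos h, Set.indicator_of_mem h']
      ring_nf
    · have h' : ω ∉ {ω | θ ω ∈ B} := h
      rw [if_neg h, Set.indicator_of_notMem h']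
      simp
  rw [e, integral_sub (integrable_const _) (((integrable_const (1 : ℝ)).indicator hB).const_mul _),
    integral_const_mul, integral_indicator hB]
  simp

open Classical in
theorem tail (μ : Measure Ω) [IsProbabilityMeasure μ] (θ : ℕ → Ω → ℕ) (hm : ∀ q, Measurable (θ q)) (hi : iIndepFun θ μ)
    (I : Finset ℕ) (B : ℕ → Set ℕ) (E : ℝ) (hE0 : 0 ≤ E) (hE : E ≤ ∑ q ∈ I, μ.real {ω | θ q ω ∈ B q}) (ε : ℝ) (hε : 0 < ε)
    (hε1 : ε ≤ 1) :
    μ.real {ω | ((I.filter (fun q => θ q ω ∈ B q)).card : ℝ) ≤ (1 - ε) * E} ≤ Real.exp (-(ε ^ 2 / 4) * E) := by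
  have hmX : ∀ q, Measurable (fun n : ℕ => if n ∈ B q then (1 : ℝ) else 0) := fun q => Measurable.of_discrete
  have hX : iIndepFun (fun q ω => if θ q ω ∈ B q then (1 : ℝ) else 0) μ := by
    have := hi.comp (fun q (n : ℕ) => if n ∈ B q then (1 : ℝ) else 0) hmX
    exact this
  have hXm : ∀ q, Measurable (fun ω => if θ q ω ∈ B q then (1 : ℝ) else 0) := fun q => (hmX q).comp (hm q)
  have hsum : ∀ ω, ((I.filter (fun q => θ q ω ∈ B q)).card : ℝ) = (∑ q ∈ I, fun ω => if θ q ω ∈ B q then (1 : ℝ) else 0) ω := by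
    intro ω
    rw [Finset.sum_apply, card_filter]
    push_cast
    rfl
  simp only [hsum]
  obtain ⟨t, ht⟩ : ∃ t : ℝ, t = ε / 2 := ⟨_, rfl⟩
  have ht0 : 0 < t := by rw [ht]; linarith
  have hmeas : Measurable (∑ q ∈ I, fun ω => if θ q ω ∈ B q then (1 : ℝ) else 0) := by
    have h0 : (∑ q ∈ I, fun ω => if θ q ω ∈ B q then (1 : ℝ) else 0) =
        fun ω => ∑ q ∈ I, if θ q ω ∈ B q then (1 : ℝ) else 0 := by
      funext ω
      rw [Finset.sum_apply]
    rw [h0]
    exact Finset.measurable_sum I fun q _ => hXm q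
  have hint : Integrable (fun ω => Real.exp (-t * (∑ q ∈ I, fun ω => if θ q ω ∈ B q then (1 : ℝ) else 0) ω)) μ := by
    apply Integrable.of_bound (C := 1)
    · exact (Real.measurable_exp.comp (hmeas.const_mul _)).aestronglyMeasurable
    · filter_upwards with ω
      rw [← hsum ω, Real.norm_of_nonneg (Real.exp_pos _).le]
      apply Real.exp_le_one_iff.2
      have : (0 : ℝ) ≤ ((I.filter (fun q => θ q ω ∈ B q)).card : ℝ) := by positivity
      nlinarith
  have h1 := measure_le_le_exp_mul_mgf (μ := μ) (X := ∑ q ∈ I, fun ω => if θ q ω ∈ B q then (1 : ℝ) else 0) ((1 - ε) * E)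
    (t := -t) (by linarith) hint
  refine h1.trans ?_
  rw [hX.mgf_sum hXm I]
  have h2 : ∏ q ∈ I, mgf (fun ω => if θ q ω ∈ B q then (1 : ℝ) else 0) μ (-t) ≤
      ∏ q ∈ I, Real.exp (-((1 - Real.exp (-t)) * μ.real {ω | θ q ω ∈ B q})) := by
    apply Finset.prod_le_prod
    · intro q _
      exact mgf_nonneg
    · intro q _
      rw [mgf_ind μ (θ q) (hm q) (B q) t]
      have := Real.add_one_le_exp (-((1 - Real.exp (-t)) * μ.real {ω | θ q ω ∈ B q}))
      linarith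
  rw [← Real.exp_sum, sum_neg_distrib, ← mul_sum] at h2
  refine (mul_le_mul_of_nonneg_left h2 (Real.exp_pos _).le).trans ?_
  rw [← Real.exp_add]
  apply Real.exp_le_exp.2
  have h3 := exp_neg_le t ht0.le
  have h4 : (t - t ^ 2 / 2) * E ≤ (1 - Real.exp (-t)) * ∑ q ∈ I, μ.real {ω | θ q ω ∈ B q} := by
    apply mul_le_mul (by linarith) hE hE0
    have : Real.exp (-t) ≤ 1 := Real.exp_le_one_iff.2 (by linarith)
    linarith
  have h5 : - -t * ((1 - ε) * E) - (t - t ^ 2 / 2) * E = (-(3 / 8) * ε ^ 2) * E := by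
    rw [ht]; ring
  have h6 : (-(3 / 8) * ε ^ 2) * E ≤ -(ε ^ 2 / 4) * E := by
    apply mul_le_mul_of_nonneg_right _ hE0
    nlinarith [sq_nonneg ε]
  linarith

lemma summ (c : ℝ) (hc : 0 < c) : Summable (fun n : ℕ => Real.exp (-c * √(n : ℝ))) := by
  have hs : Summable (fun n : ℕ => (24 / c ^ 4) * (1 / (n : ℝ) ^ 2)) :=
    (Real.summable_one_div_nat_pow.2 (by norm_num)).mul_left _
  refine Summable.of_norm_bounded_eventually_nat hs ?_
  filter_upwards [eventually_ge_atTop 1] with n hn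
  rw [Real.norm_of_nonneg (Real.exp_pos _).le]
  have hn0 : (0 : ℝ) < n := by exact_mod_cast hn
  have h1 := Real.pow_div_factorial_le_exp (c * √(n : ℝ)) (by positivity) 4
  have h2 : (c * √(n : ℝ)) ^ 4 = c ^ 4 * (n : ℝ) ^ 2 := by
    have : √(n : ℝ) ^ 4 = (√(n : ℝ) ^ 2) ^ 2 := by ring
    rw [mul_pow, this, Real.sq_sqrt hn0.le]
  rw [h2] at h1
  have h3 : ((Nat.factorial 4 : ℕ) : ℝ) = 24 := by norm_num [Nat.factorial]
  rw [h3] at h1
  have h4 : -c * √(n : ℝ) = -(c * √(n : ℝ)) := by ring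
  rw [h4, Real.exp_neg]
  have h5 : 0 < c ^ 4 * (n : ℝ) ^ 2 / 24 := by positivity
  calc (Real.exp (c * √(n : ℝ)))⁻¹ ≤ (c ^ 4 * (n : ℝ) ^ 2 / 24)⁻¹ := inv_anti₀ h5 h1
    _ = (24 / c ^ 4) * (1 / (n : ℝ) ^ 2) := by
        rw [inv_div]
        field_simp

open Classical in
theorem t_PROB : S_PROB.{u} := by
  intro Ω _ μ _ θ hm hi I B E hE ε hε
  rcases le_or_gt ε 1 with hε1 | hε1
  · have h1 : ∀ n : ℕ, μ {ω | √(n : ℝ) ≤ E n ∧ (((I n).filter (fun q => θ q ω ∈ B n q)).card : ℝ) ≤ (1 - ε) * E n} ≤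
        ENNReal.ofReal (Real.exp (-(ε ^ 2 / 4) * √(n : ℝ))) := by
      intro n
      by_cases h : √(n : ℝ) ≤ E n
      · have hE0 : 0 ≤ E n := (Real.sqrt_nonneg _).trans h
        have h2 := tail μ θ hm hi (I n) (B n) (E n) hE0 (hE n) ε hε hε1
        have h3 : {ω | √(n : ℝ) ≤ E n ∧ (((I n).filter (fun q => θ q ω ∈ B n q)).card : ℝ) ≤ (1 - ε) * E n} ⊆
            {ω | (((I n).filter (fun q => θ q ω ∈ B n q)).card : ℝ) ≤ (1 - ε) * E n} := fun ω h => h.2
        refine (measure_mono h3).trans ?_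
        rw [← ofReal_measureReal]
        apply ENNReal.ofReal_le_ofReal
        refine h2.trans ?_
        apply Real.exp_le_exp.2
        nlinarith [sq_nonneg ε]
      · have h3 : {ω | √(n : ℝ) ≤ E n ∧ (((I n).filter (fun q => θ q ω ∈ B n q)).card : ℝ) ≤ (1 - ε) * E n} = ∅ := by
          ext ω
          simp [h]
        rw [h3, measure_empty]
        exact bot_le
    have h2 : ∑' n : ℕ, μ {ω | √(n : ℝ) ≤ E n ∧ (((I n).filter (fun q => θ q ω ∈ B n q)).card : ℝ) ≤ (1 - ε) * E n} ≠ ⊤ := by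
      refine ne_top_of_le_ne_top ?_ (ENNReal.tsum_le_tsum h1)
      exact (summ (ε ^ 2 / 4) (by positivity)).tsum_ofReal_ne_top
    filter_upwards [ae_eventually_notMem h2] with ω hω
    filter_upwards [hω] with n hn hEn
    by_contra hcon
    push Not at hcon
    exact hn ⟨hEn, hcon.le⟩
  · filter_upwards with ω
    filter_upwards with n hEn
    have hE0 : 0 ≤ E n := (Real.sqrt_nonneg _).trans hEn
    have h1 : (1 - ε) * E n ≤ 0 := mul_nonpos_of_nonpos_of_nonneg (by linarith) hE0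
    exact h1.trans (by positivity)

end Pool.Agent.V5helper70.GP
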