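import Pool.Agent.V5helper54.GP.Stm

/-! Project GP, job TOT. -/

set_option autoImplicit false

namespace Pool.Agent.V5helper70.GP

open Finset Filter
open Pool.Agent.V5helper54.GP

/-- the algebra for one block -/
lemma alg (T L A G X s sg n : ℝ) (hT : 0 < T) (hL : 0 < L) (hs : 0 < s) (hn : 0 ≤ n) (hsg : s ≤ sg) (hG : 0 ≤ G)
    (hE : T * (A - n / L ^ 3) ≤ L * G) (hC : sg * X ≤ L * A) : s * X / L ^ 2 - n / L ^ 4 ≤ G / T := by
  have hGT : 0 ≤ G / T := by positivity
  rcases le_or_gt 0 X with hX | hX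
  · have h1 : s * X ≤ L * A := (mul_le_mul_of_nonneg_right hsg hX).trans hC
    have h2 : (A - n / L ^ 3) ≤ L * (G / T) := by
      rw [← mul_div_assoc, le_div_iff₀ hT]
      linarith
    have h3 : s * X / L ^ 2 ≤ A / L := by
      rw [div_le_div_iff₀ (by positivity) hL]
      nlinarith
    have h4 : A / L - n / L ^ 4 ≤ G / T := by
      have h5 : A / L - n / L ^ 4 = (A - n / L ^ 3) / L := by
        field_simp
      rw [h5, div_le_iff₀ hL]
      linarith
    linarith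
  · have h1 : s * X / L ^ 2 ≤ 0 := div_nonpos_of_nonpos_of_nonneg (by nlinarith) (by positivity)
    have h2 : 0 ≤ n / L ^ 4 := by positivity
    linarith

/-- the numerical conditions hold for large `n` -/
lemma ev (γ : ℝ) (hγ : 1 / 3 < γ) (C D k j1 : ℕ) (η : ℝ) (hη : 0 < η) : ∀ᶠ n : ℕ in atTop,
    (1 : ℝ) ≤ n ∧ 1 ≤ Real.log n ∧ (2 : ℝ) ^ C ≤ Real.log n ∧ 4 * Real.log n ^ (C + 1) ≤ η * n ∧
    (n : ℝ) ^ (1 / 3 : ℝ) * Real.log n ^ D ≤ (η * n / 2) ^ γ ∧ (n : ℝ) ≤ (η * n / 2) ^ 2 ∧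
    (k + 1 : ℝ) ≤ η * Real.log n ^ 2 ∧ (2 : ℝ) ^ j1 ≤ η * n / 2 := by
  have hcast : Tendsto (fun X : ℕ => (X : ℝ)) atTop atTop := tendsto_natCast_atTop_atTop
  have hlog : Tendsto (fun X : ℕ => Real.log X) atTop atTop := Real.tendsto_log_atTop.comp hcast
  have e1 := hlog.eventually_ge_atTop 1
  have e2 := hlog.eventually_ge_atTop ((2 : ℝ) ^ C)
  have e3 := hcast.eventually ((isLittleO_log_rpow_rpow_atTop ((C + 1 : ℕ) : ℝ) (one_pos : (0 : ℝ) < 1)).bound
    (by positivity : (0 : ℝ) < η / 4))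
  have e4 := hcast.eventually ((isLittleO_log_rpow_rpow_atTop (D : ℝ) (by linarith : (0 : ℝ) < γ - 1 / 3)).bound
    (by positivity : (0 : ℝ) < (η / 2) ^ γ))
  have e5 := hcast.eventually_ge_atTop (4 / η ^ 2)
  have e6 := hlog.eventually_ge_atTop (((k : ℝ) + 1) / η)
  have e7 := hcast.eventually_ge_atTop ((2 : ℝ) ^ j1 * 2 / η)
  filter_upwards [e1, e2, e3, e4, e5, e6, e7, eventually_ge_atTop 1] with n h1 h2 h3 h4 h5 h6 h7 h8
  have hn1 : (1 : ℝ) ≤ n := by exact_mod_cast h8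
  have hn0 : (0 : ℝ) < n := by linarith
  have hL0 : 0 < Real.log n := by linarith
  refine ⟨hn1, h1, h2, ?_, ?_, ?_, ?_, ?_⟩
  · rw [Real.norm_of_nonneg (by positivity), Real.norm_of_nonneg (by positivity), Real.rpow_natCast, Real.rpow_one] at h3
    linarith
  · rw [Real.norm_of_nonneg (by positivity), Real.norm_of_nonneg (by positivity), Real.rpow_natCast] at h4
    have h9 : (η * n / 2) ^ γ = (n : ℝ) ^ (1 / 3 : ℝ) * ((η / 2) ^ γ * (n : ℝ) ^ (γ - 1 / 3)) := by
      have h10 : η * n / 2 = (η / 2) * n := by ring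
      rw [h10, Real.mul_rpow (by positivity) hn0.le]
      have h11 : (n : ℝ) ^ γ = (n : ℝ) ^ (1 / 3 : ℝ) * (n : ℝ) ^ (γ - 1 / 3) := by
        rw [← Real.rpow_add hn0]
        congr 1
        ring
      rw [h11]
      ring
    rw [h9]
    exact mul_le_mul_of_nonneg_left h4 (by positivity)
  · rw [div_le_iff₀ (by positivity)] at h5
    have h9 : (η * n / 2) ^ 2 = (n * η ^ 2) * n / 4 := by ring
    rw [h9]
    nlinarith
  · rw [div_le_iff₀ hη] at h6
    nlinarith
  · rw [div_le_iff₀ hη] at h7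
    linarith

set_option maxHeartbeats 4000000 in
theorem t_TOT (hEXP : S_EXP) (hCLS : S_CLS) : S_TOT := by
  intro γ C M T hγ hAdm ε hε
  rcases le_or_gt 1 ε with hε1 | hε1
  · refine ⟨1, fun n hn s hs _ => ?_⟩
    have h1 : (1 - ε) * s * n / Real.log n ^ 2 ≤ 0 := by
      apply div_nonpos_of_nonpos_of_nonneg _ (by positivity)
      have : 0 ≤ s * n := by positivity
      nlinarith
    exact h1.trans (sum_nonneg fun q _ => by positivity)
  obtain ⟨k, hk⟩ := exists_pow_lt_of_lt_one (show (0 : ℝ) < ε / 10 by linarith) (show (1 / 2 : ℝ) < 1 by norm_num)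
  obtain ⟨η, hη⟩ : ∃ η : ℝ, η = (1 / 2 : ℝ) ^ k := ⟨_, rfl⟩
  rw [← hη] at hk
  have hη0 : 0 < η := by rw [hη]; positivity
  have hη1 : η ≤ 1 := by linarith
  obtain ⟨D, nE, hE⟩ := hEXP (C + 1) 3
  obtain ⟨nC, hC⟩ := hCLS (C + 1) (η / (k + 1)) (by positivity)
  obtain ⟨j0, hj0⟩ := eventually_atTop.1 hAdm
  obtain ⟨j2, hj2⟩ := exists_nat_ge (2 / η)
  obtain ⟨j1, hj1⟩ : ∃ j1, j1 = max (max j0 j2) 1 := ⟨_, rfl⟩
  obtain ⟨n1, hn1⟩ := eventually_atTop.1 (ev γ hγ C D k j1 η hη0)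
  refine ⟨max n1 (max nE nC), fun n hn s hs hsing => ?_⟩
  obtain ⟨hn1', hL1, hL2, hL3, hL4, hL5, hL6, hL7⟩ := hn1 n ((le_max_left _ _).trans hn)
  have hnE : nE ≤ n := ((le_max_left _ _).trans (le_max_right _ _)).trans hn
  have hnC : nC ≤ n := ((le_max_right _ _).trans (le_max_right _ _)).trans hn
  have hn0 : (0 : ℝ) < n := by linarith
  have hnpos : n ≠ 0 := by
    rintro rfl
    simp at hn0
  obtain ⟨L, hL⟩ : ∃ L : ℝ, L = Real.log n := ⟨_, rfl⟩
  rw [← hL] at hL1 hL2 hL3 hL4 hL6 ⊢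
  have hL0 : 0 < L := by linarith
  obtain ⟨J, hJ⟩ : ∃ J : ℕ, J = Nat.log 2 n := ⟨_, rfl⟩
  have hJ1 : 2 ^ J ≤ n := by rw [hJ]; exact Nat.pow_log_le_self 2 hnpos
  have hJ2 : n < 2 ^ (J + 1) := by rw [hJ]; exact Nat.lt_pow_succ_log_self (by norm_num) n
  have hJ1' : (2 : ℝ) ^ J ≤ n := by exact_mod_cast hJ1
  have hJ2' : (n : ℝ) < 2 ^ (J + 1) := by exact_mod_cast hJ2
  have hηk : η * 2 ^ k = 1 := by
    rw [hη, ← mul_pow]; norm_num
  have hkJ : k ≤ J := by
    by_contra hcon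
    push Not at hcon
    have h1 : (2 : ℝ) ^ (J + 1) ≤ 2 ^ k := pow_le_pow_right₀ (by norm_num) hcon
    have h2 : η * n < 1 := by
      calc η * n < η * 2 ^ k := by
            apply mul_lt_mul_of_pos_left _ hη0
            exact hJ2'.trans_le h1
        _ = 1 := hηk
    have h3 : (1 : ℝ) ≤ (2 : ℝ) ^ j1 := one_le_pow₀ (by norm_num)
    linarith
  obtain ⟨N', hN'⟩ : ∃ N' : ℕ, N' = ⌊(1 - η) * n⌋₊ := ⟨_, rfl⟩
  have hN1 : (N' : ℝ) ≤ (1 - η) * n := by
    rw [hN']
    exact Nat.floor_le (mul_nonneg (by linarith) hn0.le)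
  have hN2 : (1 - η) * n < N' + 1 := by
    rw [hN']
    exact Nat.lt_floor_add_one _
  have hN3 : (N' : ℝ) ≤ n := by
    have := mul_nonneg hη0.le hn0.le
    linarith
  have hN4 : N' ≤ n := by exact_mod_cast hN3
  -- the blocks
  obtain ⟨a, ha⟩ : ∃ a : ℕ → ℕ, a = fun j => 2 ^ j - 1 := ⟨_, rfl⟩
  obtain ⟨b, hb⟩ : ∃ b : ℕ → ℕ, b = fun j => max (a j) (min (2 ^ (j + 1) - 1) N') := ⟨_, rfl⟩
  have hab : ∀ j, a j ≤ b j := fun j => by rw [hb]; exact le_max_left _ _
  have hmem : ∀ j q, q ∈ Ioc (a j) (b j) → Nat.log 2 q = j ∧ q ≤ N' := by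
    intro j q hq
    obtain ⟨h1, h2⟩ := mem_Ioc.1 hq
    have h3 : q ≤ min (2 ^ (j + 1) - 1) N' := by
      rw [hb] at h2
      rcases le_max_iff.1 h2 with h | h
      · omega
      · exact h
    have h4 := h3.trans (min_le_left _ _)
    have h5 := h3.trans (min_le_right _ _)
    rw [ha] at h1
    have h6 : 0 < 2 ^ j := by positivity
    have h7 : 0 < 2 ^ (j + 1) := by positivity
    refine ⟨?_, h5⟩
    apply (Nat.log_eq_iff (Or.inr ⟨by norm_num, by omega⟩)).2
    constructor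
    · simp only at h1
      omega
    · omega
  -- one block
  have hblk : ∀ j ∈ Icc (J - k) J, s * (((b j : ℝ) - a j) - (η / (k + 1)) * n) / L ^ 2 - n / L ^ 4 ≤
      ∑ q ∈ (Ioc (a j) (b j)).filter Nat.Prime,
        (((range (T (Nat.log 2 q))).filter (fun t => (n - q - M (Nat.log 2 q) * t).Prime)).card : ℝ) / T (Nat.log 2 q) ∧
      n ≤ 2 ^ (2 * j) := by
    intro j hj
    obtain ⟨hjl, hju⟩ := mem_Icc.1 hj
    have h2j : η * n / 2 < (2 : ℝ) ^ j := by
      have h1 : J + 1 ≤ j + k + 1 := by omega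
      have h2 : (n : ℝ) < 2 ^ (j + k + 1) := hJ2'.trans_le (pow_le_pow_right₀ (by norm_num) h1)
      have h3 : η * n < η * 2 ^ (j + k + 1) := mul_lt_mul_of_pos_left h2 hη0
      have h4 : η * 2 ^ (j + k + 1) = 2 * 2 ^ j := by
        calc η * 2 ^ (j + k + 1) = (η * 2 ^ k) * (2 * 2 ^ j) := by ring
          _ = 2 * 2 ^ j := by rw [hηk, one_mul]
      linarith
    have hjj : j1 ≤ j := by
      by_contra hcon
      push Not at hcon
      have h1 : (2 : ℝ) ^ j ≤ 2 ^ j1 := pow_le_pow_right₀ (by norm_num) hcon.le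
      linarith
    have hjj0 : j0 ≤ j := by
      rw [hj1] at hjj
      exact ((le_max_left _ _).trans (le_max_left _ _)).trans hjj
    have hjj2 : j2 ≤ j := by
      rw [hj1] at hjj
      exact ((le_max_right _ _).trans (le_max_left _ _)).trans hjj
    have hjj3 : 1 ≤ j := by
      rw [hj1] at hjj
      exact (le_max_right _ _).trans hjj
    obtain ⟨hM1, hM2, hT1, hMT⟩ := hj0 j hjj0
    have h2jn : 2 ^ j ≤ n := (Nat.pow_le_pow_right (by norm_num) hju).trans hJ1
    have h2jn' : (2 : ℝ) ^ j ≤ n := by exact_mod_cast h2jn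
    have h22 : n ≤ 2 ^ (2 * j) := by
      have h1 : (n : ℝ) ≤ (2 : ℝ) ^ (2 * j) := by
        calc (n : ℝ) ≤ (η * n / 2) ^ 2 := hL5
          _ ≤ (2 ^ j) ^ 2 := by
              apply pow_le_pow_left₀ (by positivity) h2j.le
          _ = 2 ^ (2 * j) := by rw [← pow_mul, mul_comm]
      exact_mod_cast h1
    have hsg := hsing j h22 h2jn
    have hjL : (j : ℝ) ≤ 2 * L := by
      have h1 : Real.log ((2 : ℝ) ^ j) ≤ L := by
        rw [hL]
        exact Real.log_le_log (by positivity) h2jn'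
      rw [Real.log_pow] at h1
      have := Real.log_two_gt_d9
      have h3 : (0 : ℝ) ≤ j := by positivity
      nlinarith
    have hML : (M j : ℝ) ≤ L ^ (C + 1) := by
      have h1 : (M j : ℝ) ≤ (j : ℝ) ^ C := by exact_mod_cast hM2
      calc (M j : ℝ) ≤ (j : ℝ) ^ C := h1
        _ ≤ (2 * L) ^ C := pow_le_pow_left₀ (by positivity) hjL C
        _ = 2 ^ C * L ^ C := mul_pow _ _ _
        _ ≤ L * L ^ C := mul_le_mul_of_nonneg_right hL2 (by positivity)
        _ = L ^ (C + 1) := by ring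
    have hTn : (n : ℝ) ^ (1 / 3 : ℝ) * L ^ D ≤ T j := by
      refine hL4.trans (le_trans ?_ hT1)
      have h1 : (2 : ℝ) ^ (γ * j) = ((2 : ℝ) ^ j) ^ γ := by
        rw [← Real.rpow_natCast, ← Real.rpow_mul (by norm_num), mul_comm]
      rw [h1]
      exact Real.rpow_le_rpow (by positivity) h2j.le (by linarith)
    have hT0 : (0 : ℝ) < T j := by
      refine lt_of_lt_of_le ?_ hTn
      positivity
    -- the size
    have hsize : ∀ q ∈ (Ioc (a j) (b j)).filter Nat.Prime, q + M j * (T j + 2) ≤ n := by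
      intro q hq
      have h1 := (hmem j q (mem_filter.1 hq).1).2
      have h2 : (q : ℝ) ≤ N' := by exact_mod_cast h1
      have h3 : (M j : ℝ) * T j ≤ η * n / 2 := by
        have h4 : (j : ℝ) * (M j * T j) ≤ 2 ^ j := by exact_mod_cast hMT
        have h5 : 2 / η ≤ j := hj2.trans (by exact_mod_cast hjj2)
        rw [div_le_iff₀ hη0] at h5
        have h6 : (0 : ℝ) ≤ M j * T j := by positivity
        have h7 : 2 * ((M j : ℝ) * T j) ≤ (j * η) * (M j * T j) := mul_le_mul_of_nonneg_right h5 h6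
        have h8 : (j * η) * ((M j : ℝ) * T j) = η * (j * (M j * T j)) := by ring
        have h9 : η * (j * ((M j : ℝ) * T j)) ≤ η * n := mul_le_mul_of_nonneg_left (h4.trans h2jn') hη0.le
        linarith
      have h4 : ((q + M j * (T j + 2) : ℕ) : ℝ) ≤ n := by
        push_cast
        have h5 : (M j : ℝ) * (T j + 2) = M j * T j + 2 * M j := by ring
        rw [h5]
        linarith
      exact_mod_cast h4
    have hsub : (Ioc (a j) (b j)).filter Nat.Prime ⊆ Icc 1 n := by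
      intro q hq
      have h1 := hsize q hq
      have h2 := (mem_filter.1 hq).2.one_lt
      rw [mem_Icc]
      constructor
      · omega
      · exact (Nat.le_add_right _ _).trans h1
    have hbn : b j ≤ n := by
      rw [hb]
      apply max_le
      · rw [ha]
        simp only
        omega
      · exact (min_le_right _ _).trans hN4
    have hE' := hE n hnE (M j) (T j) hM1 (by rw [← hL]; exact hML) (by rw [← hL]; exact hTn) _ hsub hsize
    have hC' := hC n hnC (M j) hM1 (by rw [← hL]; exact hML) (hs.trans hsg) (a j) (b j) (hab j) hbn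
    rw [← hL] at hE' hC'
    have hfil : ((Ioc (a j) (b j)).filter Nat.Prime).filter (fun q => (n - q).Coprime (M j)) =
        (Ioc (a j) (b j)).filter (fun q => q.Prime ∧ (n - q).Coprime (M j)) := filter_filter _ _ _
    rw [hfil] at hE'
    refine ⟨?_, h22⟩
    have hsum : ∑ q ∈ (Ioc (a j) (b j)).filter Nat.Prime,
        (((range (T (Nat.log 2 q))).filter (fun t => (n - q - M (Nat.log 2 q) * t).Prime)).card : ℝ) / T (Nat.log 2 q) =
        (∑ q ∈ (Ioc (a j) (b j)).filter Nat.Prime,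
          (((range (T j)).filter (fun t => (n - q - M j * t).Prime)).card : ℝ)) / T j := by
      rw [sum_div]
      apply sum_congr rfl
      intro q hq
      rw [(hmem j q (mem_filter.1 hq).1).1]
    rw [hsum]
    refine alg (T j) L ((M j : ℝ) / (Nat.totient (M j) : ℝ) *
      (((Ioc (a j) (b j)).filter (fun q => q.Prime ∧ (n - q).Coprime (M j))).card : ℝ)) _ _ s (sing (M j) n) n hT0 hL0
      (by linarith) hn0.le hsg (sum_nonneg fun q _ => by positivity) hE' ?_
    calc sing (M j) n * ((b j : ℝ) - a j - η / (k + 1) * n) ≤ L * ((M j : ℝ) / (Nat.totient (M j) : ℝ)) *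
          (((Ioc (a j) (b j)).filter (fun q => q.Prime ∧ (n - q).Coprime (M j))).card : ℝ) := hC'
      _ = _ := by ring
  -- the union of the blocks
  have hdisj : (↑(Icc (J - k) J) : Set ℕ).PairwiseDisjoint (fun j => (Ioc (a j) (b j)).filter Nat.Prime) := by
    intro i _ j _ hij
    rw [Function.onFun, disjoint_left]
    intro q hq hq'
    exact hij ((hmem i q (mem_filter.1 hq).1).1.symm.trans (hmem j q (mem_filter.1 hq').1).1)
  have hunion : (Icc (J - k) J).biUnion (fun j => (Ioc (a j) (b j)).filter Nat.Prime) ⊆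
      (Icc 1 n).filter (fun q => q.Prime ∧ n ≤ 2 ^ (2 * Nat.log 2 q)) := by
    intro q hq
    obtain ⟨j, hj, hqj⟩ := mem_biUnion.1 hq
    obtain ⟨h1, h2⟩ := hmem j q (mem_filter.1 hqj).1
    have hp := (mem_filter.1 hqj).2
    refine mem_filter.2 ⟨mem_Icc.2 ⟨hp.one_lt.le, h2.trans hN4⟩, hp, ?_⟩
    rw [h1]
    exact (hblk j hj).2
  have hstep : ∑ j ∈ Icc (J - k) J, (s * (((b j : ℝ) - a j) - (η / (k + 1)) * n) / L ^ 2 - n / L ^ 4) ≤
      ∑ q ∈ (Icc 1 n).filter (fun q => q.Prime ∧ n ≤ 2 ^ (2 * Nat.log 2 q)),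
      (((range (T (Nat.log 2 q))).filter (fun t => (n - q - M (Nat.log 2 q) * t).Prime)).card : ℝ) / T (Nat.log 2 q) := by
    refine (sum_le_sum fun j hj => (hblk j hj).1).trans ?_
    rw [← sum_biUnion hdisj]
    exact sum_le_sum_of_subset_of_nonneg hunion fun q _ _ => by positivity
  refine le_trans ?_ hstep
  -- the length
  have hlen : (1 - 2 * η) * n ≤ ∑ j ∈ Icc (J - k) J, ((b j : ℝ) - a j) := by
    have h1 : Ioc (2 ^ (J - k) - 1) N' ⊆ (Icc (J - k) J).biUnion (fun j => Ioc (a j) (b j)) := by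
      intro q hq
      obtain ⟨h2, h3⟩ := mem_Ioc.1 hq
      have h4 : 0 < 2 ^ (J - k) := by positivity
      have hq0 : q ≠ 0 := by omega
      have h5 : 2 ^ Nat.log 2 q ≤ q := Nat.pow_log_le_self 2 hq0
      have h6 : q < 2 ^ (Nat.log 2 q + 1) := Nat.lt_pow_succ_log_self (by norm_num) q
      refine mem_biUnion.2 ⟨Nat.log 2 q, mem_Icc.2 ⟨?_, ?_⟩, mem_Ioc.2 ⟨?_, ?_⟩⟩
      · exact (Nat.le_log_iff_pow_le (by norm_num) hq0).2 (by omega)
      · rw [hJ]
        exact Nat.log_mono_right (h3.trans hN4)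
      · rw [ha]
        simp only
        have : 0 < 2 ^ Nat.log 2 q := by positivity
        omega
      · rw [hb]
        exact le_max_of_le_right (le_min (by omega) h3)
    have h2 := (card_le_card h1).trans card_biUnion_le
    simp only [Nat.card_Ioc] at h2
    have h3 : ((N' - (2 ^ (J - k) - 1) : ℕ) : ℝ) ≤ ((∑ j ∈ Icc (J - k) J, (b j - a j) : ℕ) : ℝ) := by exact_mod_cast h2
    have h4 : ((∑ j ∈ Icc (J - k) J, (b j - a j) : ℕ) : ℝ) = ∑ j ∈ Icc (J - k) J, ((b j : ℝ) - a j) := by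
      push_cast
      apply sum_congr rfl
      intro j _
      rw [Nat.cast_sub (hab j)]
    rw [h4] at h3
    refine le_trans ?_ h3
    have h5 : (N' : ℝ) ≤ ((N' - (2 ^ (J - k) - 1) : ℕ) : ℝ) + ((2 ^ (J - k) - 1 : ℕ) : ℝ) := by
      exact_mod_cast (by omega : N' ≤ (N' - (2 ^ (J - k) - 1)) + (2 ^ (J - k) - 1))
    have h6 : ((2 ^ (J - k) - 1 : ℕ) : ℝ) = (2 : ℝ) ^ (J - k) - 1 := by
      rw [Nat.cast_sub (Nat.one_le_two_pow)]
      push_cast
      ring
    have h7 : (2 : ℝ) ^ (J - k) ≤ η * n := by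
      have h8 : (2 : ℝ) ^ J = 2 ^ (J - k) * 2 ^ k := by
        rw [← pow_add]
        congr 1
        omega
      have h9 : (2 : ℝ) ^ (J - k) = η * 2 ^ J := by
        rw [h8]
        calc (2 : ℝ) ^ (J - k) = 2 ^ (J - k) * (η * 2 ^ k) := by rw [hηk, mul_one]
          _ = η * (2 ^ (J - k) * 2 ^ k) := by ring
      rw [h9]
      exact mul_le_mul_of_nonneg_left hJ1' hη0.le
    linarith
  have hcard : ((Icc (J - k) J).card : ℝ) = k + 1 := by
    rw [Nat.card_Icc]
    have : J + 1 - (J - k) = k + 1 := by omega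
    rw [this]
    push_cast
    ring
  have hfin : ∑ j ∈ Icc (J - k) J, (s * (((b j : ℝ) - a j) - (η / (k + 1)) * n) / L ^ 2 - n / L ^ 4) =
      s * (∑ j ∈ Icc (J - k) J, ((b j : ℝ) - a j) - η * n) / L ^ 2 - (k + 1) * n / L ^ 4 := by
    rw [sum_sub_distrib, sum_const, nsmul_eq_mul, hcard, ← sum_div, ← mul_sum, sum_sub_distrib, sum_const, nsmul_eq_mul,
      hcard]
    have h1 : ((k : ℝ) + 1) * (η / (k + 1) * n) = η * n := by
      field_simp
    rw [h1, mul_div_assoc ((k : ℝ) + 1)]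
  rw [hfin]
  have h1 : s * ((1 - 3 * η) * n) / L ^ 2 ≤ s * (∑ j ∈ Icc (J - k) J, ((b j : ℝ) - a j) - η * n) / L ^ 2 := by
    apply div_le_div_of_nonneg_right _ (by positivity)
    apply mul_le_mul_of_nonneg_left _ (by linarith)
    linarith
  have h2 : ((k : ℝ) + 1) * n / L ^ 4 ≤ η * (s * n) / L ^ 2 := by
    rw [div_le_div_iff₀ (by positivity) (by positivity)]
    have h3 : ((k : ℝ) + 1) * n ≤ (η * L ^ 2) * n := mul_le_mul_of_nonneg_right hL6 hn0.le
    have h4 : (η * L ^ 2) * n ≤ η * (s * n) * L ^ 2 := by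
      have : n ≤ s * n := by nlinarith
      calc (η * L ^ 2) * n ≤ (η * L ^ 2) * (s * n) := mul_le_mul_of_nonneg_left this (by positivity)
        _ = η * (s * n) * L ^ 2 := by ring
    calc ((k : ℝ) + 1) * n * L ^ 2 ≤ (η * (s * n) * L ^ 2) * L ^ 2 := mul_le_mul_of_nonneg_right (h3.trans h4) (by positivity)
      _ = η * (s * n) * L ^ 4 := by ring
  have h3 : (1 - ε) * s * n / L ^ 2 ≤ s * ((1 - 3 * η) * n) / L ^ 2 - η * (s * n) / L ^ 2 := by
    rw [← sub_div]
    apply div_le_div_of_nonneg_right _ (by positivity)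
    have h5 : 0 ≤ s * n := by positivity
    have h6 : s * ((1 - 3 * η) * n) - η * (s * n) = (1 - 4 * η) * (s * n) := by ring
    have h7 : (1 - ε) * s * n = (1 - ε) * (s * n) := by ring
    rw [h6, h7]
    apply mul_le_mul_of_nonneg_right _ h5
    linarith
  linarith

end Pool.Agent.V5helper70.GP
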